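import Pool.Agent.H17.CX.Targets

/-!
# DCP: decomposition of a reducible curve
-/

set_option autoImplicit false

open MvPolynomial SC Pool.Agent.H27.LV
open Pool.Agent.H92.SF Pool.Agent.H3.SF Pool.Agent.H17.SD Pool.Agent.H17.SFG Pool.Agent.H17.CX

namespace Pool.Agent.H63.CNX

section

variable {k F σ : Type} [Field k] [Field F] [Algebra k F]

/-- a minimal prime over a homogeneous ideal is homogeneous -/
theorem minimalPrime_hom (A P : Ideal (MvPolynomial σ k))
    (hA : ∀ f ∈ A, ∀ d, homogeneousComponent d f ∈ A) (hP : P ∈ A.minimalPrimes) :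
    ∀ f ∈ P, ∀ d, homogeneousComponent d f ∈ P := by
  let := MvPolynomial.gradedAlgebra (σ := σ) (R := k)
  have hAh : A.IsHomogeneous (homogeneousSubmodule σ k) := by
    intro i r hr
    have h2 := hA r hr i
    rw [← decomposition.decompose'_apply] at h2
    exact h2
  have h1 : (P.homogeneousCore (homogeneousSubmodule σ k)).toIdeal.IsPrime :=
    hP.1.1.homogeneousCore
  have h2 : A ≤ (P.homogeneousCore (homogeneousSubmodule σ k)).toIdeal := by
    rw [← hAh.toIdeal_homogeneousCore_eq_self]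
    exact Ideal.homogeneousCore_mono _ hP.1.2
  have h3 : P ≤ (P.homogeneousCore (homogeneousSubmodule σ k)).toIdeal :=
    hP.2 ⟨h1, h2⟩ (Ideal.toIdeal_homogeneousCore_le _ _)
  have h4 : P.IsHomogeneous (homogeneousSubmodule σ k) := by
    rw [Ideal.IsHomogeneous.iff_eq]
    exact le_antisymm (Ideal.toIdeal_homogeneousCore_le _ _) h3
  intro f hf d
  exact homogeneousComponent_mem_of_mem h4 hf d

/-- a form in one homogeneous ideal outside another -/
theorem exists_form (P Q : Ideal (MvPolynomial σ k))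
    (hP : ∀ f ∈ P, ∀ d, homogeneousComponent d f ∈ P) (hPQ : ¬ P ≤ Q) :
    ∃ (e : ℕ) (g : MvPolynomial σ k), g.IsHomogeneous e ∧ g ∈ P ∧ g ∉ Q := by
  obtain ⟨f, hf, hfQ⟩ := Set.not_subset.mp hPQ
  by_contra hcon
  push Not at hcon
  apply hfQ
  have h1 : f = ∑ i ∈ Finset.range (f.totalDegree + 1), homogeneousComponent i f :=
    (sum_homogeneousComponent f).symm
  rw [h1]
  exact Q.sum_mem fun i _ => hcon i _ (homogeneousComponent_isHomogeneous i f) (hP f hf i)

/-- forms which vanish on the other components -/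
theorem exists_cofactor (A Q : Ideal (MvPolynomial σ k)) (hfin : A.minimalPrimes.Finite)
    (hrad : sInf A.minimalPrimes = A)
    (hhom : ∀ P ∈ A.minimalPrimes, ∀ f ∈ P, ∀ d, homogeneousComponent d f ∈ P)
    (hQ : Q ∈ A.minimalPrimes) :
    ∃ (e : ℕ) (g : MvPolynomial σ k), g.IsHomogeneous e ∧ g ∉ Q ∧ ∀ f ∈ Q, f * g ∈ A := by
  classical
  have h1 : ∀ P : Ideal (MvPolynomial σ k), ∃ (e : ℕ) (g : MvPolynomial σ k),
      P ∈ hfin.toFinset.erase Q → g.IsHomogeneous e ∧ g ∈ P ∧ g ∉ Q := by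
    intro P
    by_cases hP : P ∈ hfin.toFinset.erase Q
    · rw [Finset.mem_erase, Set.Finite.mem_toFinset] at hP
      have h2 : ¬ P ≤ Q := by
        intro h
        exact hP.1 (le_antisymm h (hQ.2 hP.2.1 h))
      obtain ⟨e, g, hg⟩ := exists_form P Q (hhom P hP.2) h2
      exact ⟨e, g, fun _ => hg⟩
    · exact ⟨0, 0, fun h => absurd h hP⟩
  choose e g hg using h1
  refine ⟨∑ P ∈ hfin.toFinset.erase Q, e P, ∏ P ∈ hfin.toFinset.erase Q, g P,
    IsHomogeneous.prod _ _ _ fun P hP => (hg P hP).1, ?_, ?_⟩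
  · intro h
    have hQp : Q.IsPrime := hQ.1.1
    obtain ⟨P, hP, hPQ⟩ := (hQp.prod_mem_iff).mp h
    exact (hg P hP).2.2 hPQ
  · intro f hf
    suffices hmem : f * ∏ P ∈ hfin.toFinset.erase Q, g P ∈ sInf A.minimalPrimes from
      hrad.le hmem
    rw [Submodule.mem_sInf]
    intro P hP
    by_cases hPQ : P = Q
    · rw [hPQ]
      exact Q.mul_mem_right _ hf
    · apply Ideal.mul_mem_left P f
      have h3 : P ∈ hfin.toFinset.erase Q := by
        rw [Finset.mem_erase, Set.Finite.mem_toFinset]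
        exact ⟨hPQ, hP⟩
      exact Ideal.mem_of_dvd P (Finset.dvd_prod_of_mem g h3) (hg P h3).2.1

/-- a homogeneous prime ideal which does not contain another one has a zero -/
theorem exists_pt [IsAlgClosed k] [Fintype σ] (Q Q' : Ideal (MvPolynomial σ k)) (hQ : Q.IsPrime)
    (hQ' : Q'.IsPrime) (hhom : ∀ f ∈ Q', ∀ d, homogeneousComponent d f ∈ Q')
    (h : ¬ Q' ≤ Q) : ∃ s : σ → k, s ≠ 0 ∧ ∀ f ∈ Q, eval s f = 0 := by
  by_contra hcon
  push Not at hcon
  apply h
  intro f hf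
  have h0 : constantCoeff f = 0 := by
    by_contra h1
    have h2 := hhom f hf 0
    rw [homogeneousComponent_zero] at h2
    apply hQ'.ne_top
    refine Ideal.eq_top_of_isUnit_mem _ h2 ?_
    rw [constantCoeff_eq] at h1
    exact (IsUnit.mk0 _ h1).map C
  have h1 : f ∈ Q.radical := by
    rw [← vanishingIdeal_zeroLocus_eq_radical (K := k), mem_vanishingIdeal_iff]
    intro s hs
    rw [mem_zeroLocus_iff] at hs
    have hs0 : s = 0 := by
      by_contra hs0
      obtain ⟨q, hq, hqs⟩ := hcon s hs0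
      apply hqs
      rw [← coe_aeval_eq_eval]
      exact hs q hq
    rw [hs0]
    simpa using h0
  rwa [hQ.radical] at h1

end

theorem pf_DCP : T_DCP := by
  classical
  intro k F σ _ _ _ _ _ X m G hX hm hG hG0 hirr
  have hAhom := irp_hom X hX G hG
  have hker : ∀ f, aeval X f = 0 → f ∈ Irp X G := by
    intro f hf
    rw [mem_irp]
    exact ⟨1, 0, by rw [pow_one, hf, zero_mul, map_zero]⟩
  have hGA : G ∈ Irp X G := by
    rw [mem_irp]
    exact ⟨1, 1, by rw [pow_one, one_mul]⟩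
  have hAtop : Irp X G ≠ ⊤ := by
    intro h
    obtain ⟨n, q, hq⟩ := (mem_irp X G 1).mp (h ▸ Submodule.mem_top)
    rw [one_pow] at hq
    have h1 : aeval X (1 - q * G) = 0 := by rw [map_sub, hq, sub_self]
    have h2 := hX _ h1 0
    rw [map_sub, hc_mul' q G hG 0 hm, sub_zero,
      homogeneousComponent_of_mem (n := 0) (isHomogeneous_one σ k), if_pos rfl, map_one] at h2
    exact one_ne_zero h2
  have hfin : (Irp X G).minimalPrimes.Finite := Ideal.finite_minimalPrimes_of_isNoetherianRing _ _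
  have hrad : sInf (Irp X G).minimalPrimes = Irp X G := by
    rw [Ideal.sInf_minimalPrimes]
    exact Ideal.radical_idem _
  have hhom : ∀ P ∈ (Irp X G).minimalPrimes, ∀ f ∈ P, ∀ d, homogeneousComponent d f ∈ P :=
    fun P hP => minimalPrime_hom _ P hAhom hP
  obtain ⟨Q, hQ⟩ := Ideal.nonempty_minimalPrimes hAtop
  obtain ⟨Q', hQ', hne⟩ : ∃ Q' ∈ (Irp X G).minimalPrimes, Q' ≠ Q := by
    by_contra hcon
    push Not at hcon
    apply hirr
    have h1 : (Irp X G).minimalPrimes = {Q} := by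
      ext P
      exact ⟨fun hP => hcon P hP, fun hP => by rw [Set.mem_singleton_iff.mp hP]; exact hQ⟩
    rw [h1, sInf_singleton] at hrad
    change (Irp X G).IsPrime
    rw [← hrad]
    exact hQ.1.1
  have hle1 : ¬ Q ≤ Q' := fun h => hne (le_antisymm (hQ'.2 hQ.1 h) h)
  have hle2 : ¬ Q' ≤ Q := fun h => hne (le_antisymm h (hQ.2 hQ'.1 h))
  obtain ⟨d, h, hh, hhQ, hhQ'⟩ := exists_form Q Q' (hhom Q hQ) hle1
  obtain ⟨e, g, hg, hgQ, hgm⟩ := exists_cofactor _ Q hfin hrad hhom hQ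
  obtain ⟨e', g', hg', hgQ', hgm'⟩ := exists_cofactor _ Q' hfin hrad hhom hQ'
  refine ⟨Q, Q', g, g', h, d, ?_, ?_, hh, hhQ, hhQ'⟩
  · exact ⟨hQ.1.1, hhom Q hQ, fun f hf => hQ.1.2 (hker f hf), hQ.1.2 hGA, ⟨e, hg⟩, hgQ, hgm,
      exists_pt Q Q' hQ.1.1 hQ'.1.1 (hhom Q' hQ') hle2⟩
  · exact ⟨hQ'.1.1, hhom Q' hQ', fun f hf => hQ'.1.2 (hker f hf), hQ'.1.2 hGA, ⟨e', hg'⟩, hgQ',
      hgm', exists_pt Q' Q hQ'.1.1 hQ.1.1 (hhom Q hQ) hle1⟩

end Pool.Agent.H63.CNX
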